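import Pool.Agent.H995R3.Boards.Cont

set_option autoImplicit false

/-!
# Absolutely homogeneous edge-coloured complete graphs with a countable palette

An absolutely homogeneous graph with edge-colouring whose palette is countable has at most `ℵ₀` or
at least `2 ^ ℵ₀` vertices. So the statement of Q1 fails (for `α = ℵ₀`, `β = ℵ₁`) whenever the
continuum hypothesis fails, and it is not a theorem of ZFC.

Idea. There is no infinite monochromatic clique `X` (take `X` maximal and extend an injection
`X → X` which is not onto). Let `B` be a countable set of vertices in which every type over a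
finite subset of `B` that is realised at all is realised, and let `v` be a vertex outside `B`. For
each finite `A ⊆ B` there are `b₀, b₁ ∈ B` of the same type over `A` with `κ(v, b₀) ≠ κ(v, b₁)`;
otherwise one finds an infinite monochromatic clique in `B`. This gives a binary tree of partial
morphisms with `2 ^ ℵ₀` branches; the branches extend to automorphisms, and no two of these
have the same value at `v`.
-/

open Cardinal Set

universe u v

namespace Pool.Agent.Results.MP_0b7070_lc.CountablePalette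

/-- A graph with edge-colouring on the vertex set `V` with colours from `C`: a symmetric function
on `V × V` which has the value `e` (the pseudocolour) exactly on the diagonal. -/
structure GEC (V : Type u) (C : Type v) where
  /-- the colouring -/
  col : V → V → C
  /-- the pseudocolour -/
  e : C
  symm : ∀ x y, col x y = col y x
  diag : ∀ x y, col x y = e ↔ x = y

variable {V : Type u} {C : Type v}

/-- The palette: the set of the colours of the pairs of different vertices. -/
def GEC.palette (G : GEC V C) : Set C := {c | ∃ x y, x ≠ y ∧ G.col x y = c}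

/-- A partial morphism: a function `f : A → V` on a set `A` of vertices that preserves the
colouring. -/
def GEC.IsPartialMorphism (G : GEC V C) (A : Set V) (f : A → V) : Prop :=
  ∀ x y : A, G.col (f x) (f y) = G.col x.1 y.1

/-- An automorphism: a bijection of the vertex set that preserves the colouring. -/
def GEC.IsAutomorphism (G : GEC V C) (F : Equiv.Perm V) : Prop :=
  ∀ x y : V, G.col (F x) (F y) = G.col x y

/-- Absolutely homogeneous: every partial morphism extends to an automorphism. -/
def GEC.AbsolutelyHomogeneous (G : GEC V C) : Prop :=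
  ∀ (A : Set V) (f : A → V), G.IsPartialMorphism A f →
    ∃ F : Equiv.Perm V, G.IsAutomorphism F ∧ ∀ x : A, F x.1 = f x

/-- The statement of Q1: for all infinite cardinals `α < β < 2 ^ α` there is an absolutely
homogeneous graph with edge-colouring with palette of cardinality `α` and vertex set of
cardinality `β`. -/
def StatementQ1 : Prop :=
  ∀ α β : Cardinal.{u}, ℵ₀ ≤ α → α < β → β < 2 ^ α →
    ∃ (V C : Type u) (G : GEC V C), G.AbsolutelyHomogeneous ∧ #G.palette = α ∧ #V = β

/-- there is no infinite monochromatic clique -/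
theorem no_clique (G : GEC V C) (hG : G.AbsolutelyHomogeneous) (c : C) (hc : c ≠ G.e)
    (s : ℕ → V) (hs : ∀ i j, i < j → G.col (s j) (s i) = c) : False := by
  classical
  have hs2 : ∀ i j, i ≠ j → G.col (s i) (s j) = c := by
    intro i j hij
    rcases lt_or_gt_of_ne hij with h | h
    · rw [G.symm]; exact hs i j h
    · exact hs j i h
  have hinj : Function.Injective s := by
    intro i j hij
    by_contra hne
    have h1 := hs2 i j hne
    rw [hij, (G.diag (s j) (s j)).2 rfl] at h1
    exact hc h1.symm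
  let 𝒮 : Set (Set V) := {X | ∀ x ∈ X, ∀ y ∈ X, x ≠ y → G.col x y = c}
  have hr : range s ∈ 𝒮 := by
    rintro _ ⟨i, rfl⟩ _ ⟨j, rfl⟩ hne
    exact hs2 i j (fun h => hne (by rw [h]))
  obtain ⟨X, hsX, hX⟩ := zorn_subset_nonempty 𝒮 (by
    intro c' hc' hchain _
    refine ⟨⋃₀ c', ?_, fun t ht => subset_sUnion_of_mem ht⟩
    rintro x ⟨t, ht, hxt⟩ y ⟨t', ht', hyt⟩ hne
    rcases hchain.total ht ht' with h | h
    · exact hc' ht' x (h hxt) y hyt hne
    · exact hc' ht x hxt y (h hyt) hne) (range s) hr
  have hXinf : Infinite X := by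
    have h1 : (range s).Infinite := infinite_range_of_injective hinj
    exact (h1.mono hsX).to_subtype
  have hcard : #(Option X) = #X := by
    rw [mk_option]
    exact add_one_eq (aleph0_le_mk X)
  obtain ⟨φ⟩ := Cardinal.eq.1 hcard
  have hXc : ∀ x y : X, x ≠ y → G.col x.1 y.1 = c := fun x y h =>
    hX.1 x.1 x.2 y.1 y.2 (fun h' => h (Subtype.ext h'))
  have hpm : G.IsPartialMorphism X (fun x => (φ (some x)).1) := by
    intro x y
    by_cases hxy : x = y
    · subst hxy
      rw [(G.diag _ _).2 rfl, (G.diag _ _).2 rfl]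
    · rw [hXc x y hxy]
      exact hXc _ _ (fun h => hxy (Option.some_injective _ (φ.injective h)))
  obtain ⟨F, hF, hFX⟩ := hG X _ hpm
  set y : V := F.symm (φ none).1 with hy
  have hFy : F y = (φ none).1 := by rw [hy, Equiv.apply_symm_apply]
  have hyX : y ∉ X := by
    intro h
    have h1 := hFX ⟨y, h⟩
    rw [hFy] at h1
    have h2 := φ.injective (Subtype.ext h1)
    cases h2
  have hcl : insert y X ∈ 𝒮 := by
    have key : ∀ x ∈ X, G.col y x = c := by
      intro x hx
      rw [← hF y x, hFy, hFX ⟨x, hx⟩]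
      refine hXc _ _ (fun h => ?_)
      have h2 := φ.injective h
      cases h2
    rintro a (rfl | ha) b (rfl | hb) hne
    · exact absurd rfl hne
    · exact key b hb
    · rw [G.symm]; exact key a ha
    · exact hX.1 a ha b hb hne
  exact hyX (hX.2 hcl (subset_insert y X) (mem_insert y X))

/-- `v` and `w` have the same type over the list `l` -/
def Same (G : GEC V C) (l : List V) (v w : V) : Prop := ∀ a ∈ l, G.col v a = G.col w a

/-- a countable set in which all types over finite subsets are realised -/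
theorem exists_hull (G : GEC V C) (hp : G.palette.Countable) (hne : Nonempty V) :
    ∃ B : Set V, B.Countable ∧ ∀ l : List V, (∀ a ∈ l, a ∈ B) → ∀ v : V,
      ∃ b ∈ B, Same G l b v := by
  classical
  obtain ⟨v0⟩ := hne
  let P' : Set C := insert G.e G.palette
  have hP' : Countable P' := (hp.insert _).to_subtype
  have hcol : ∀ x y, G.col x y ∈ P' := by
    intro x y
    by_cases h : x = y
    · exact Or.inl ((G.diag x y).2 h)
    · exact Or.inr ⟨x, y, h, rfl⟩
  let rep : List V → List C → V := fun l τ =>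
    if h : ∃ v, l.map (G.col v) = τ then h.choose else v0
  have hrep : ∀ l v, Same G l (rep l (l.map (G.col v))) v := by
    intro l v a ha
    have h : ∃ w, l.map (G.col w) = l.map (G.col v) := ⟨v, rfl⟩
    have h1 : l.map (G.col (rep l (l.map (G.col v)))) = l.map (G.col v) := by
      simp only [rep, dif_pos h]
      exact h.choose_spec
    exact (List.map_inj_left.1 h1) a ha
  let nx : Set V → Set V := fun B =>
    B ∪ range fun p : List B × List P' => rep (p.1.map Subtype.val) (p.2.map Subtype.val)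
  let B : ℕ → Set V := fun n => nx^[n] ∅
  have hB : ∀ n, (B n).Countable := by
    intro n
    induction n with
    | zero => exact countable_empty
    | succ n ih =>
      have h1 : B (n + 1) = nx (B n) := Function.iterate_succ_apply' nx n ∅
      rw [h1]
      have : Countable (B n) := ih.to_subtype
      exact ih.union (countable_range _)
  have hmono : Monotone B := by
    refine monotone_nat_of_le_succ fun n => ?_
    have h1 : B (n + 1) = nx (B n) := Function.iterate_succ_apply' nx n ∅
    rw [h1]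
    exact subset_union_left
  refine ⟨⋃ n, B n, countable_iUnion hB, fun l hl v => ?_⟩
  have hex : ∃ n, ∀ a ∈ l, a ∈ B n := by
    induction l with
    | nil => exact ⟨0, by simp⟩
    | cons a l ih =>
      obtain ⟨n, hn⟩ := ih fun b hb => hl b (List.mem_cons_of_mem _ hb)
      obtain ⟨m, hm⟩ := mem_iUnion.1 (hl a List.mem_cons_self)
      refine ⟨max n m, fun b hb => ?_⟩
      rcases List.mem_cons.1 hb with rfl | hb
      · exact hmono (le_max_right _ _) hm
      · exact hmono (le_max_left _ _) (hn b hb)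
  obtain ⟨n, hn⟩ := hex
  refine ⟨rep l (l.map (G.col v)), mem_iUnion.2 ⟨n + 1, ?_⟩, hrep l v⟩
  have h1 : B (n + 1) = nx (B n) := Function.iterate_succ_apply' nx n ∅
  rw [h1]
  refine Or.inr ⟨⟨l.attach.map fun a => ⟨a.1, hn a.1 a.2⟩, l.map fun a => ⟨G.col v a, hcol v a⟩⟩, ?_⟩
  simp only [List.map_map]
  congr 1
  · conv_rhs => rw [← List.attach_map_subtype_val l]
    rfl
  
/-- every finite set is split -/
theorem exists_split (G : GEC V C) (hG : G.AbsolutelyHomogeneous) (B : Set V)
    (hB : ∀ l : List V, (∀ a ∈ l, a ∈ B) → ∀ v : V, ∃ b ∈ B, Same G l b v) (v : V) (hv : v ∉ B)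
    (l : List V) (hl : ∀ a ∈ l, a ∈ B) :
    ∃ b₀ ∈ B, ∃ b₁ ∈ B, Same G l b₀ b₁ ∧ G.col v b₀ ≠ G.col v b₁ := by
  classical
  by_contra hcon
  push Not at hcon
  obtain ⟨b, hbB, hb⟩ := hB l hl v
  set c := G.col v b with hc
  have hce : c ≠ G.e := by
    intro h
    exact hv (((G.diag v b).1 h) ▸ hbB)
  choose r hrB hr using fun (m : {m : List V // ∀ a ∈ m, a ∈ B}) => hB m.1 m.2 v
  let app : {m : List V // ∀ a ∈ m, a ∈ B} → {m : List V // ∀ a ∈ m, a ∈ B} := fun m =>
    ⟨l ++ m.1, fun a ha => (List.mem_append.1 ha).elim (hl a) (m.2 a)⟩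
  let L : ℕ → {m : List V // ∀ a ∈ m, a ∈ B} := fun n =>
    Nat.rec ⟨[], by simp⟩ (fun _ m => ⟨r (app m) :: m.1, fun a ha =>
      (List.mem_cons.1 ha).elim (fun h => h ▸ hrB _) (m.2 a)⟩) n
  have hL : ∀ n, (L (n + 1)).1 = r (app (L n)) :: (L n).1 := fun n => rfl
  let s : ℕ → V := fun n => r (app (L n))
  have hmem : ∀ i j, i < j → s i ∈ (L j).1 := by
    intro i j hij
    induction j with
    | zero => exact absurd hij (Nat.not_lt_zero _)
    | succ j ih =>
      rw [hL]
      rcases Nat.lt_succ_iff_lt_or_eq.1 hij with h | h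
      · exact List.mem_cons_of_mem _ (ih h)
      · rw [h]; exact List.mem_cons_self
  have hsB : ∀ i, s i ∈ B := fun i => hrB _
  have hsv : ∀ i, G.col v (s i) = c := by
    intro i
    refine hcon (s i) (hsB i) b hbB ?_
    intro a ha
    rw [hb a ha]
    exact hr (app (L i)) a (List.mem_append_left _ ha)
  refine no_clique G hG c hce s fun i j hij => ?_
  have h1 := hr (app (L j)) (s i) (List.mem_append_right _ (hmem i j hij))
  rw [hsv i] at h1
  exact h1

/-- two points of the same type are moved to each other -/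
theorem exists_move (G : GEC V C) (hG : G.AbsolutelyHomogeneous) (l : List V) (b₀ b₁ : V)
    (h : Same G l b₀ b₁) :
    ∃ F : Equiv.Perm V, G.IsAutomorphism F ∧ (∀ a ∈ l, F a = a) ∧ F b₀ = b₁ := by
  classical
  have hb : b₀ ∈ l → b₁ = b₀ := by
    intro hm
    have h1 := h b₀ hm
    rw [(G.diag b₀ b₀).2 rfl] at h1
    exact (G.diag b₁ b₀).1 h1.symm
  obtain ⟨F, hF, hFA⟩ := hG {x | x ∈ l ∨ x = b₀} (fun x => if x.1 = b₀ then b₁ else x.1) (by
    rintro ⟨x, hx⟩ ⟨y, hy⟩
    show G.col (if x = b₀ then b₁ else x) (if y = b₀ then b₁ else y) = G.col x y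
    by_cases hx0 : x = b₀
    · by_cases hy0 : y = b₀
      · rw [if_pos hx0, if_pos hy0, hx0, hy0, (G.diag _ _).2 rfl, (G.diag _ _).2 rfl]
      · rw [if_pos hx0, if_neg hy0, hx0]
        exact (h y (hy.resolve_right hy0)).symm
    · by_cases hy0 : y = b₀
      · rw [if_neg hx0, if_pos hy0, hy0, G.symm x b₁, G.symm x b₀]
        exact (h x (hx.resolve_right hx0)).symm
      · rw [if_neg hx0, if_neg hy0])
  refine ⟨F, hF, fun a ha => ?_, ?_⟩
  · have h1 := hFA ⟨a, Or.inl ha⟩
    rw [h1]
    by_cases hab : a = b₀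
    · simp only [hab, if_true]
      exact hb (hab ▸ ha)
    · simp only [hab, if_false]
  · have h1 := hFA ⟨b₀, Or.inr rfl⟩
    rw [h1]
    simp

/-- many vertices -/
theorem continuum_le (G : GEC V C) (hG : G.AbsolutelyHomogeneous) (hp : G.palette.Countable)
    (hV : ℵ₀ < #V) : 𝔠 ≤ #V := by
  classical
  have hne : Nonempty V := by
    rw [← mk_ne_zero_iff]
    exact (aleph0_pos.trans hV).ne'
  obtain ⟨B, hBc, hB⟩ := exists_hull G hp hne
  obtain ⟨v, hv⟩ : ∃ v, v ∉ B := by
    by_contra hcon
    push Not at hcon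
    have h1 : #V ≤ ℵ₀ := by
      rw [← mk_univ, ← (eq_univ_of_forall hcon : B = Set.univ)]
      exact hBc.le_aleph0
    exact absurd h1 (not_le.2 hV)
  let T := {m : List V // ∀ a ∈ m, a ∈ B}
  choose b₀ hb₀ b₁ hb₁ hsame hsplit using fun m : T => exists_split G hG B hB v hv m.1 m.2
  choose h hh hfix hmove using fun m : T => exists_move G hG m.1 (b₀ m) (b₁ m) (hsame m)
  let A : ℕ → T := fun n => Nat.rec ⟨[], by simp⟩ (fun _ m => ⟨b₀ m :: b₁ m :: m.1, by
    intro a ha
    rcases List.mem_cons.1 ha with rfl | ha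
    · exact hb₀ m
    · rcases List.mem_cons.1 ha with rfl | ha
      · exact hb₁ m
      · exact m.2 a ha⟩) n
  have hA : ∀ n, (A (n + 1)).1 = b₀ (A n) :: b₁ (A n) :: (A n).1 := fun n => rfl
  have hAmono : ∀ m n, m ≤ n → ∀ a ∈ (A m).1, a ∈ (A n).1 := by
    intro m n hmn
    induction n, hmn using Nat.le_induction with
    | base => exact fun a ha => ha
    | succ n _ ih =>
      intro a ha
      rw [hA]
      exact List.mem_cons_of_mem _ (List.mem_cons_of_mem _ (ih a ha))
  let F : (ℕ → Bool) → ℕ → Equiv.Perm V := fun x n =>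
    Nat.rec 1 (fun k f => if x k then f * (h (A k))⁻¹ else f) n
  have hF0 : ∀ x, F x 0 = 1 := fun x => rfl
  have hFs : ∀ x n, F x (n + 1) = if x n then F x n * (h (A n))⁻¹ else F x n := fun x n => rfl
  have hFaut : ∀ x n, G.IsAutomorphism (F x n) := by
    intro x n
    induction n with
    | zero => intro a b; rfl
    | succ n ih =>
      rw [hFs]
      split_ifs
      · intro a b
        rw [Equiv.Perm.mul_apply, Equiv.Perm.mul_apply, ih]
        have e1 : ∀ z, h (A n) ((h (A n))⁻¹ z) = z := fun z => (h (A n)).apply_symm_apply z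
        have := hh (A n) ((h (A n))⁻¹ a) ((h (A n))⁻¹ b)
        rw [e1, e1] at this
        exact this.symm
      · exact ih
  have hstep : ∀ x n, ∀ a ∈ (A n).1, F x (n + 1) a = F x n a := by
    intro x n a ha
    rw [hFs]
    split_ifs
    · rw [Equiv.Perm.mul_apply]
      congr 1
      rw [Equiv.Perm.inv_eq_iff_eq]
      exact (hfix (A n) a ha).symm
    · rfl
  have hstab : ∀ x m n, m ≤ n → ∀ a ∈ (A m).1, F x n a = F x m a := by
    intro x m n hmn a ha
    induction n, hmn using Nat.le_induction with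
    | base => rfl
    | succ n hn ih => rw [hstep x n a (hAmono m n hn a ha), ih]
  let S : Set V := {a | ∃ n, a ∈ (A n).1}
  have hSn : ∀ a : S, ∃ n, a.1 ∈ (A n).1 := fun a => a.2
  choose ix hix using hSn
  have hext : ∀ x : ℕ → Bool, ∃ E : Equiv.Perm V, G.IsAutomorphism E ∧
      ∀ n, ∀ a ∈ (A n).1, E a = F x n a := by
    intro x
    have hval : ∀ a : S, ∀ n, a.1 ∈ (A n).1 → F x (ix a) a.1 = F x n a.1 := by
      intro a n hn
      rw [← hstab x n (max n (ix a)) (le_max_left _ _) a.1 hn,
        ← hstab x (ix a) (max n (ix a)) (le_max_right _ _) a.1 (hix a)]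
    obtain ⟨E, hE, hES⟩ := hG S (fun a => F x (ix a) a.1) (by
      intro a b
      show G.col (F x (ix a) a.1) (F x (ix b) b.1) = G.col a.1 b.1
      rw [hval a (max (ix a) (ix b)) (hAmono _ _ (le_max_left _ _) _ (hix a)),
        hval b (max (ix a) (ix b)) (hAmono _ _ (le_max_right _ _) _ (hix b))]
      exact hFaut x _ _ _)
    refine ⟨E, hE, fun n a ha => ?_⟩
    rw [hES ⟨a, ⟨n, ha⟩⟩]
    exact hval ⟨a, ⟨n, ha⟩⟩ n ha
  choose E hE hEA using hext
  have hagree : ∀ x y : ℕ → Bool, ∀ n, (∀ k < n, x k = y k) → F x n = F y n := by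
    intro x y n
    induction n with
    | zero => intro _; rfl
    | succ n ih =>
      intro hk
      rw [hFs, hFs, hk n (Nat.lt_succ_self n), ih fun k hk' => hk k (hk'.trans (Nat.lt_succ_self n))]
  have key : ∀ x y : ℕ → Bool, ∀ n, (∀ k < n, x k = y k) → x n = false → y n = true →
      E x v ≠ E y v := by
    intro x y n hk hx hy heq
    have h1 : E x (b₀ (A n)) = F x n (b₀ (A n)) := by
      rw [hEA x (n + 1) _ (by rw [hA]; exact List.mem_cons_self), hFs, hx]
      simp
    have h2 : E y (b₁ (A n)) = F y n (b₀ (A n)) := by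
      rw [hEA y (n + 1) _ (by rw [hA]; exact List.mem_cons_of_mem _ List.mem_cons_self), hFs, hy]
      simp only [if_true, Equiv.Perm.mul_apply]
      congr 1
      rw [Equiv.Perm.inv_eq_iff_eq]
      exact (hmove (A n)).symm
    rw [← hagree x y n hk] at h2
    apply hsplit (A n)
    rw [← hE x v (b₀ (A n)), ← hE y v (b₁ (A n)), heq, h1, h2]
  have hinj : Function.Injective fun x : ULift.{u} (ℕ → Bool) => E x.down v := by
    rintro ⟨x⟩ ⟨y⟩ hxy
    by_contra hne
    have hne' : ∃ n, x n ≠ y n := by
      by_contra hcon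
      push Not at hcon
      exact hne (by rw [funext hcon])
    have hlt : ∀ k < Nat.find hne', x k = y k := fun k hk => not_not.1 (Nat.find_min hne' hk)
    have hd := Nat.find_spec hne'
    rcases hxn : x (Nat.find hne') with _ | _
    · rcases hyn : y (Nat.find hne') with _ | _
      · exact hd (by rw [hxn, hyn])
      · exact key x y _ hlt hxn hyn hxy
    · rcases hyn : y (Nat.find hne') with _ | _
      · exact key y x _ (fun k hk => (hlt k hk).symm) hyn hxn hxy.symm
      · exact hd (by rw [hxn, hyn])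
  have := mk_le_of_injective hinj
  rw [mk_uLift] at this
  have h2 : #(ℕ → Bool) = 𝔠 := by
    rw [← Cardinal.power_def, mk_bool, mk_nat, two_power_aleph0]
  rwa [h2, lift_continuum] at this

open Pool.Agent.Helper669.Forcing Pool.Agent.H458R4.Cohen in
/-- the failure of the continuum hypothesis can be forced -/
theorem forcing_not_ch : ∃ (κ : Cardinal.{0}) (P : Type) (_ : Preorder P), ℵ_ 1 < κ ∧ Nonempty P ∧
    ∀ p : P, p ∈ CardinalsPreserved.{0, 0} P ∧ p ∈ ContinuumIs P κ := by
  have h12 : (ℵ_ 1 : Cardinal.{0}) < ℵ_ 2 := aleph_lt_aleph.2 (by norm_num)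
  have hle : (ℵ_ 2 : Cardinal.{0}) ≤ (ℵ_ 2) ^ ℵ₀ := self_le_power _ one_le_aleph0
  have hκ : ℵ₀ < (ℵ_ 2 : Cardinal.{0}) ^ ℵ₀ :=
    (aleph0_le_aleph 1).trans_lt (h12.trans_le hle)
  refine ⟨(ℵ_ 2) ^ ℵ₀, Fn ((ℵ_ 2 : Cardinal.{0}) ^ ℵ₀).out, inferInstance, h12.trans_le hle,
    inferInstance, fun p => ⟨?_, Pool.Agent.H995R3.Boards.continuumIs hκ
      (by rw [← power_mul, aleph0_mul_aleph0]) p⟩⟩
  have hcc : ∀ (ι : Type) (f : ι → Fn ((ℵ_ 2 : Cardinal.{0}) ^ ℵ₀).out), ℵ₀ < #ι →
      ∃ i j, i ≠ j ∧ ∃ r, r ≤ f i ∧ r ≤ f j := by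
    intro ι f hι
    by_contra hcon
    push Not at hcon
    have hinj : Function.Injective f := by
      intro i j hij
      by_contra hne
      exact hcon i j hne (f i) le_rfl hij.le
    have h1 := ccc (range f) (by
      rintro _ ⟨i, rfl⟩ _ ⟨j, rfl⟩ ⟨r, h1, h2⟩
      by_contra hne
      exact hcon i j (fun h => hne (by rw [h])) r h1 h2)
    have h2 : #ι ≤ ℵ₀ := by
      rw [← mk_range_eq f hinj]
      exact h1.le_aleph0
    exact absurd h2 (not_le.2 hι)
  intro μ ν hμν hν q1 hq1 hex
  obtain ⟨q2, hq2, R, hfun, honto⟩ := mem_fex.1 hex q1 le_rfl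
  let W : μ.out → Set ν.out := fun x => {y | ∃ r ≤ q2, r ∈ meets (R x y)}
  have hW : ∀ x, #(W x) ≤ ℵ₀ := by
    intro x
    by_contra hc
    rw [not_le] at hc
    have hch : ∀ y : W x, ∃ r ≤ q2, r ∈ meets (R x y.1) := fun y => y.2
    choose f hf1 hf2 using hch
    obtain ⟨i, j, hij, r, hri, hrj⟩ := hcc (W x) f hc
    apply hij
    apply Subtype.ext
    have hr : r ∈ IsFun R := down_IsFun R _ hfun r (hri.trans (hf1 i))
    exact IsFun.unique hr (down_meets _ _ (hf2 i) r hri) (down_meets _ _ (hf2 j) r hrj)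
  have hU : (⋃ x, W x) = Set.univ := by
    rw [Set.eq_univ_iff_forall]
    intro y
    obtain ⟨r, hr, x, h⟩ := mem_fex.1 (honto y) q2 le_rfl
    exact Set.mem_iUnion.2 ⟨x, r, hr, h⟩
  have h1 : ν ≤ μ * ℵ₀ := by
    calc ν = #(ν.out) := (Cardinal.mk_out ν).symm
      _ = #(Set.univ : Set ν.out) := Cardinal.mk_univ.symm
      _ = #(⋃ x, W x) := by rw [hU]
      _ ≤ Cardinal.sum fun x => #(W x) := Cardinal.mk_iUnion_le_sum_mk
      _ ≤ Cardinal.sum fun _ : μ.out => ℵ₀ := Cardinal.sum_le_sum _ _ hW
      _ = μ * ℵ₀ := by rw [Cardinal.sum_const', Cardinal.mk_out]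
  exact absurd h1 (not_le.2 (Cardinal.mul_lt_of_lt hν.le hμν hν))

open Pool.Agent.Helper669.Forcing in
/-- **Q1 is not a theorem of ZFC.**
(1) An absolutely homogeneous graph with edge-colouring whose palette is countable has at most
`ℵ₀` or at least `2 ^ ℵ₀` vertices.
(2) The statement of Q1 implies the continuum hypothesis.
(3) Some notion of forcing preserves all cardinals and forces that the continuum is a cardinal
greater than `ℵ₁`. -/
theorem result :
    (∀ (V : Type u) (C : Type v) (G : GEC V C), G.AbsolutelyHomogeneous → G.palette.Countable →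
      #V ≤ ℵ₀ ∨ 𝔠 ≤ #V) ∧
    (StatementQ1.{u} → (ℵ_ 1 : Cardinal.{u}) = 𝔠) ∧
    (∃ (κ : Cardinal.{0}) (P : Type) (_ : Preorder P), ℵ_ 1 < κ ∧ Nonempty P ∧
      ∀ p : P, p ∈ CardinalsPreserved.{0, 0} P ∧ p ∈ ContinuumIs P κ) := by
  refine ⟨fun V C G hG hp => ?_, fun h => ?_, forcing_not_ch⟩
  · rcases le_or_gt (#V) ℵ₀ with h | h
    · exact Or.inl h
    · exact Or.inr (continuum_le G hG hp h)
  · refine le_antisymm aleph_one_le_continuum ?_
    by_contra hlt
    rw [not_le] at hlt
    have h01 : (ℵ₀ : Cardinal.{u}) < ℵ_ 1 := by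
      rw [← aleph_zero]
      exact aleph_lt_aleph.2 zero_lt_one
    obtain ⟨V, C, G, hG, hp, hV⟩ := h ℵ₀ (ℵ_ 1) le_rfl h01 (by rw [two_power_aleph0]; exact hlt)
    have h1 := continuum_le G hG (by rw [← le_aleph0_iff_set_countable, hp]) (by rw [hV]; exact h01)
    rw [hV] at h1
    exact absurd h1 (not_le.2 hlt)

end Pool.Agent.Results.MP_0b7070_lc.CountablePalette
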